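import Pool.Agent.KT3.StmtsM

/-!
Squad KT3, row ANS: the star points.
-/

set_option autoImplicit false

open Matrix Filter Topology

namespace Pool.Agent.KT3.H82

open Pool.Agent.PFS Pool.Agent.PFJ Pool.Agent.NBT Pool.Agent.KT3

/-- **ANS**. -/
theorem ans (hPHU : PhuStmt) (hLFM : LfmStmt) (hWIF : WifStmt) (hANF : AnfStmt)
    (hANY : AnyStmt) : AnsStmt := by
  intro n C Γ d q hH w N hAN φ hφ pr hpr x x' y p p' hx hx' hφx hφx' hp hp' hpy hy hyn hφy
  have cc : CC C Γ := hH.toCC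
  have hP : PCone C := cc.toPCone
  have H := cc.hul
  have hwl := hAN.wl
  have hpes : IsPES C Γ w := hwl.pes
  have hK : HK C Γ 3 := hH.toHK
  obtain ⟨-, -, -, a4, a5⟩ := hANF n C Γ d q hH w N hAN φ hφ
  obtain ⟨-, -, a4c, a4d⟩ := a4 x' hx' p' hp'
  obtain ⟨-, hl⟩ := hLFM n C Γ d hH w hwl
  obtain ⟨hwl', -, -, hext, -, -, -⟩ := hl x' hx'
  obtain ⟨b1, -, -, -, -, -, -⟩ := hWIF n C Γ 3 I01 d hH.toHI w hwl pr hpr
  -- the point z
  have hz_cl : p' y ∈ closure C := hp'.pos y hy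
  have hφz : φ (p' y) = 1 := by rw [a4c y, hφy]
  have hzne : p' y ≠ 0 := by
    intro h0
    rw [h0, map_zero] at hφz
    exact zero_ne_one hφz
  obtain ⟨M, hM, hMz⟩ := a4d.2.2 (p' y) (LinearMap.mem_range_self p' y)
  have hpr2 : pr (w 2) = 0 := b1 2 (by decide)
  have hprx' : pr x' = x' := hpr.idB x' hx'.mem
  have hprz_cl : pr (p' y) ∈ closure C := hpr.pos _ hz_cl
  have h1 : M • x' - pr (p' y) ∈ closure C := by
    have h2 := hpr.pos _ hMz
    rw [map_sub, map_smul, map_add, hprx', hpr2, add_zero] at h2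
    exact h2
  obtain ⟨c, hc⟩ := hext _ hprz_cl M h1
  -- φ ∘ pr = φ
  have hφpr : ∀ u, φ (pr u) = φ u := by
    intro u
    have h3 := (hPHU n C Γ 3 hK w hpes 0 φ hφ).1 (φ.comp pr)
      (fun v hv => hφ.pos _ (hpr.pos v hv)) (by
        intro j hj
        have hj' : j = 1 ∨ j = 2 := by
          fin_cases j
          · exact absurd rfl hj
          · exact Or.inl rfl
          · exact Or.inr rfl
        rcases hj' with rfl | rfl
        · rw [LinearMap.comp_apply, hpr.idB (w 1) (hwl.box.mem 1 (by decide))]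
          exact hφ.zero 1 (by decide)
        · rw [LinearMap.comp_apply, hpr2, map_zero]) u
    rw [LinearMap.comp_apply, LinearMap.comp_apply, hpr.idB (w 0) (hwl.box.mem 0 (by decide)),
      hφ.one, one_mul] at h3
    exact h3
  have hprz : pr (p' y) = x' := by
    have h4 := hφpr (p' y)
    rw [hφz, hc, map_smul, hφx', smul_eq_mul, mul_one] at h4
    rw [hc, h4, one_smul]
  -- z is in the limit cone
  have hpes' : IsPES C Γ (up w x') := hwl'.pes
  have e0 : up w x' 0 = x' := Function.update_self _ _ _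
  have e1 : up w x' 1 = w 1 := Function.update_of_ne (by decide) _ _
  have e2 : up w x' 2 = w 2 := Function.update_of_ne (by decide) _ _
  have hx'L : x' ∈ LamC C Γ := by
    have h5 := hpes'.2 0
    rwa [e0] at h5
  have hw2L : w 2 ∈ LamC C Γ := hpes.2 2
  have hx2H : x' + w 2 ∈ Hull C Γ := H.add _ (H.lamHull _ hx'L) _ (H.lamHull _ hw2L)
  have hx2C : x' + w 2 ∉ C := by
    have h6 := hpes'.1.bd (fun j => if j = 1 then 0 else 1)
      (by intro j; split <;> norm_num) ⟨1, by simp⟩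
    have h7 : (∑ j : Fin 3, (if j = 1 then (0 : ℝ) else 1) • up w x' j) = x' + w 2 := by
      rw [Fin.sum_univ_three, e0, e2, if_neg (by decide), if_pos rfl, if_neg (by decide),
        one_smul, zero_smul, one_smul, add_zero]
    rw [h7] at h6
    exact h6
  have hx2ne : x' + w 2 ≠ 0 := by
    intro h0
    have h8 : w 2 = -x' := by
      rw [add_comm] at h0
      exact eq_neg_of_add_eq_zero_left h0
    refine H.lamNe _ hx'L (hP.salient x' (H.lamCl _ hx'L) ?_)
    rw [← h8]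
    exact H.lamCl _ hw2L
  have hx2L : x' + w 2 ∈ LamC C Γ :=
    Pool.Agent.PFS.H37.cloF n C Γ cc (fun _ => x' + w 2) (x' + w 2) (fun _ => hx2H)
      tendsto_const_nhds hx2C hx2ne
  have hzL : p' y ∈ LamC C Γ := by
    refine Pool.Agent.PFS.H37.flmF n C Γ cc (M • (x' + w 2)) (H.lamSmul _ hx2L M hM) (p' y)
      hz_cl hzne hMz
  -- z + y + w 1 is not in C
  have hppy : p (p' y) = y := by
    rw [a5 x x' (w 2) (w 2) p p' hp hp' y, hpy]
  have hpw1 : p (w 1) = 0 := (hp.ker (w 1)).2 hAN.mem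
  have hnot : (y + w 1) + p' y ∉ C := by
    intro hmem
    refine hyn ⟨⟨y, hpy⟩, hy, ?_⟩
    rintro e ⟨e', he'⟩
    obtain ⟨M1, hM1, h9⟩ := hP.absorb hmem e
    have h10 := hp.pos _ (subset_closure h9)
    have hpe : p e = e := by rw [← he', hp.idm]
    rw [map_sub, map_smul, map_add, map_add, hpy, hpw1, hppy, hpe, add_zero] at h10
    refine ⟨M1 * 2, by positivity, ?_⟩
    have h11 : (M1 * 2) • y = M1 • (y + y) := by
      rw [← two_smul ℝ y, smul_smul]
    rw [h11]
    exact h10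
  -- FMX
  obtain ⟨hpesy, -, -⟩ := hANY n C Γ d q hH w N hAN φ hφ x hx p hp y hpy hy hyn
    (by rw [hφy]; exact one_pos)
  have g0 : up w y 0 = y := Function.update_self _ _ _
  have g1 : up w y 1 = w 1 := Function.update_of_ne (by decide) _ _
  have hsum : (∑ m ∈ Finset.univ.erase (2 : Fin 3), up w y m) = y + w 1 := by
    have h12 : (Finset.univ.erase (2 : Fin 3)) = {0, 1} := by decide
    rw [h12, Finset.sum_pair (by decide), g0, g1]
  obtain ⟨M2, hM2, h13⟩ := Pool.Agent.PFJ.H10.fmx n C Γ cc 3 (le_refl 3) hK.maxc (up w y) 2 (p' y)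
    hpesy hzL (by rw [hsum]; exact hnot)
  rw [hsum] at h13
  have hcly : ∀ i, up w y i ∈ closure C := fun i => H.lamCl _ (hpesy.2 i)
  have hfS : fS (up w y) I01 = y + w 1 := by
    rw [fS_pair _ (by decide), g0, g1]
  have hyw1 : y + w 1 ∈ closure C := hP.cl_add hy (H.lamCl _ (hpes.2 1))
  refine ⟨hz_cl, hφz, hprz, ?_⟩
  refine fce hP hcly (M := M2) ?_ ?_
  · rw [hfS]; exact h13
  · rw [hfS]
    exact hP.cl_add (hP.cl_smul hyw1 hM2.le) hz_cl

end Pool.Agent.KT3.H82
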